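import Pool.Agent.H57.Back

/-!
# Density of hyperbolicity and the growth of the derivatives at the preimages of a point
-/

set_option autoImplicit false
open Filter

namespace Pool.Agent.Results.MP_af9036_an.BackwardGrowth

open Pool.Agent.H57.Queer N62a1eb23

/-- If the derivatives of the iterates `f ^ k` at the points of `f ^ (-k) (b)` near the critical
value `c` are of size at least `exp (C (log k) ^ 2)`, then `c` is a limit of parameters with
attracting cycles; here `b` is the critical point, or a point which is not approximated too closely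
by the critical orbit. -/
theorem result : ∀ n : ℕ, 2 ≤ n → ∀ A : ℝ, ∃ C : ℝ, 0 < C ∧ ∀ c ∈ multibrotSet n,
    c ∈ closure (esc n c) → ∀ b : ℂ, b ≠ c →
    (b = 0 ∨ ∀ᶠ j : ℕ in atTop, Real.exp (-(A * Real.log j ^ 2)) ≤ ‖(f n c)^[j] c - b‖) →
    ∀ ρ : ℝ, 0 < ρ →
    (∀ᶠ k : ℕ in atTop, ∀ y : ℂ, ‖y - c‖ < ρ → (f n c)^[k] y = b →
      Real.exp (C * Real.log k ^ 2) ≤ ‖deriv (f n c)^[k] y‖) →
    c ∈ closure (hyp n) :=
  fun _ hn A => back hn A

end Pool.Agent.Results.MP_af9036_an.BackwardGrowth
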