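import Pool.Agent.H57.Esc

/-!
# Density of hyperbolicity and the geometry of the basin of infinity near the critical value
-/

set_option autoImplicit false
open Filter

namespace Pool.Agent.Results.MP_af9036_an.EscapeTimeCriterion

open Pool.Agent.H57.Queer N62a1eb23

/-- If the points near the critical value `c` which escape in time `k` lie within
`exp (- C (log k) ^ 2)` of the filled Julia set, then `c` is a limit of parameters with
attracting cycles. -/
theorem result : ∀ n : ℕ, 2 ≤ n → ∃ C : ℝ, 0 < C ∧ ∀ c ∈ multibrotSet n,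
    c ∈ closure (esc n c) → ∀ ρ : ℝ, 0 < ρ →
    (∀ᶠ k : ℕ in atTop, ∀ z : ℂ, ‖z - c‖ < ρ → ‖(f n c)^[k] z‖ ≤ 3 → 3 < ‖(f n c)^[k + 1] z‖ →
      Metric.infDist z (esc n c)ᶜ ≤ Real.exp (-(C * Real.log k ^ 2))) →
    c ∈ closure (hyp n) :=
  fun _ hn => escape hn

end Pool.Agent.Results.MP_af9036_an.EscapeTimeCriterion
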