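import Pool.Agent.H57.Per

/-!
# Density of hyperbolicity at parameters with strongly repelling long cycles near the critical value
-/

set_option autoImplicit false
open Filter

namespace Pool.Agent.Results.MP_af9036_an.WeaklyRepellingCycles

open Pool.Agent.H57.Queer N62a1eb23

/-- If all the cycles of large period `p` with a point near the critical value `c` have multipliers
of size at least `exp (C (log p) ^ 2)`, then `c` is a limit of parameters with attracting cycles. -/
theorem result : ∀ n : ℕ, 2 ≤ n → ∃ C : ℝ, 0 < C ∧ ∀ c ∈ multibrotSet n,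
    c ∈ closure (esc n c) → ∀ ρ : ℝ, 0 < ρ →
    (∀ᶠ p : ℕ in atTop, ∀ z : ℂ, ‖z - c‖ < ρ → Function.minimalPeriod (f n c) z = p →
      Real.exp (C * Real.log p ^ 2) ≤ ‖deriv (f n c)^[p] z‖) →
    c ∈ closure (hyp n) :=
  fun _ hn => cyc hn

end Pool.Agent.Results.MP_af9036_an.WeaklyRepellingCycles
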